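import Pool.Agent.H30.FCB.StB
import Pool.Agent.H30.FCB.Basic

/-! Project FCB: module AWCH (helper5). -/

open AlgebraicGeometry CategoryTheory

namespace FCB

namespace AWCH

variable {R ι C : Type} {r : ℕ} [CommRing R] [Algebra ℂ R] [Fintype ι]
  {D : Cox R ι C r}

/-- the monomial of the chart -/
noncomputable def vm (h : D.Laws) (c : C) : D.ver := D.verMono (D.ν c) (D.d c) (h.ν_wt c)

theorem vm_pow (h : D.Laws) (c : C) (k : ℕ) : ((vm h c ^ k : D.ver) : Polynomial R) =
    Polynomial.monomial (D.d c * k) (D.mono (k • D.ν c)) := by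
  have h1 : ((vm h c ^ k : D.ver) : Polynomial R) =
      (Polynomial.monomial (D.d c) (D.mono (D.ν c))) ^ k := rfl
  rw [h1, Polynomial.monomial_pow, D.mono_nsmul]

theorem vm_pow_mem (h : D.Laws) (c : C) (k : ℕ) : vm h c ^ k ∈ D.verGr (D.d c * k) := by
  intro j hj
  rw [vm_pow, Polynomial.coeff_monomial, if_neg (fun h => hj h.symm)]

theorem wt_smul_ν (h : D.Laws) (c : C) (k : ℕ) : D.wt (k • D.ν c) = (D.d c * k) • D.L := by
  rw [D.wt_nsmul, h.ν_wt, smul_smul, mul_comm]

end AWCH

theorem awch : S_AWCH := by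
  intro R ι C r _ _ _ _ D h c φ hφ f
  constructor
  · intro hf
    obtain ⟨n, a, hn, ha, hfa⟩ := Cox.mem_chart.1 hf
    -- choose `k` with `n ≤ k ν`
    obtain ⟨k, hk⟩ : ∃ k : ℕ, ∀ j, n j ≤ (k • D.ν c) j := by
      refine ⟨∑ j, n j, fun j => ?_⟩
      by_cases hj : n j = 0
      · rw [hj]
        exact Nat.zero_le _
      · have h1 := (h.ν_supp c j).2 (hn j hj)
        have h2 : n j ≤ ∑ j, n j := Finset.single_le_sum (fun i _ => Nat.zero_le _) (Finset.mem_univ j)
        simp only [Pi.smul_apply, smul_eq_mul]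
        nlinarith [Nat.pos_of_ne_zero h1]
    obtain ⟨n', hn'⟩ : ∃ n' : ι → ℕ, n + n' = k • D.ν c :=
      ⟨fun j => (k • D.ν c) j - n j, funext fun j => Nat.add_sub_cancel' (hk j)⟩
    have hmem : a * D.mono n' ∈ D.gr ((D.d c * k) • D.L) := by
      rw [← AWCH.wt_smul_ν h c k, ← hn', D.wt_add]
      exact D.mul_mem ha (D.mono_mem n')
    let num : D.ver := ⟨Polynomial.monomial (D.d c * k) (a * D.mono n'), by
      intro m
      rw [Polynomial.coeff_monomial]
      split_ifs with h1
      · subst h1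
        exact hmem
      · exact Submodule.zero_mem _⟩
    have hnum : num ∈ D.verGr (D.d c * k) := by
      intro j hj
      show (Polynomial.monomial (D.d c * k) (a * D.mono n')).coeff j = 0
      rw [Polynomial.coeff_monomial, if_neg (fun h => hj h.symm)]
    let q : HomogeneousLocalization.NumDenSameDeg D.verGr (Submonoid.powers (AWCH.vm h c)) :=
      { deg := D.d c * k
        num := ⟨num, hnum⟩
        den := ⟨AWCH.vm h c ^ k, AWCH.vm_pow_mem h c k⟩
        den_mem := ⟨k, rfl⟩ }
    refine ⟨HomogeneousLocalization.mk q, ?_⟩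
    have h1 := hφ q
    have h2 : (((q.den : D.ver) : Polynomial R).coeff q.deg) = D.mono (k • D.ν c) := by
      show ((AWCH.vm h c ^ k : D.ver) : Polynomial R).coeff (D.d c * k) = _
      rw [AWCH.vm_pow, Polynomial.coeff_monomial, if_pos rfl]
    have h3 : (((q.num : D.ver) : Polynomial R).coeff q.deg) = a * D.mono n' := by
      show (Polynomial.monomial (D.d c * k) (a * D.mono n')).coeff (D.d c * k) = _
      rw [Polynomial.coeff_monomial, if_pos rfl]
    rw [h2, h3, map_mul, ← hfa, mul_assoc, ← map_mul, ← D.mono_add, hn'] at h1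
    have h4 : algebraMap R (FractionRing R) (D.mono (k • D.ν c)) ≠ 0 := by
      rw [Ne, FaithfulSMul.algebraMap_eq_zero_iff]
      exact h.mono_ne _
    exact mul_right_cancel₀ h4 h1
  · rintro ⟨y, rfl⟩
    obtain ⟨q, rfl⟩ := HomogeneousLocalization.mk_surjective y
    obtain ⟨k, hk⟩ := q.den_mem
    have hk' : AWCH.vm h c ^ k = (q.den : D.ver) := hk
    have hdeg : q.deg = D.d c * k := by
      by_contra hne
      have h1 := q.den.2 (D.d c * k) (fun h => hne h.symm)
      rw [← hk', AWCH.vm_pow, Polynomial.coeff_monomial, if_pos rfl] at h1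
      exact h.mono_ne _ h1
    have h1 := hφ q
    have h2 : (((q.den : D.ver) : Polynomial R).coeff q.deg) = D.mono (k • D.ν c) := by
      rw [← hk', AWCH.vm_pow, Polynomial.coeff_monomial, if_pos hdeg.symm]
    rw [h2] at h1
    refine Cox.mem_chart.2 ⟨k • D.ν c, _, ?_, ?_, h1⟩
    · intro j hj
      apply (h.ν_supp c j).1
      intro h0
      apply hj
      simp [h0]
    · rw [AWCH.wt_smul_ν h c k, ← hdeg]
      exact (q.num : D.ver).2 q.deg

end FCB
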