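import Pool.Agent.H30.FCB.StB
import Pool.Agent.H30.FCB.Basic

/-! Project FCB: module EMBH (helper5). -/

open AlgebraicGeometry CategoryTheory

namespace FCB

namespace EMBH

variable {R ι C : Type} {r : ℕ} [CommRing R] [IsDomain R] [Algebra ℂ R] [Fintype ι]
  (D : Cox R ι C r)

omit [IsDomain R] in
theorem eq_monomial (m : ℕ) (P : D.ver) (hP : P ∈ D.verGr m) :
    (P : Polynomial R) = Polynomial.monomial m ((P : Polynomial R).coeff m) := by
  ext k
  rw [Polynomial.coeff_monomial]
  split_ifs with h
  · rw [h]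
  · exact hP k (Ne.symm h)

omit [IsDomain R] in
theorem coeff_mul (m n : ℕ) (P Q : D.ver) (hP : P ∈ D.verGr m) (hQ : Q ∈ D.verGr n) :
    ((P * Q : D.ver) : Polynomial R).coeff (m + n) =
      (P : Polynomial R).coeff m * (Q : Polynomial R).coeff n := by
  have h1 : ((P * Q : D.ver) : Polynomial R) = (P : Polynomial R) * (Q : Polynomial R) := rfl
  rw [h1, eq_monomial D m P hP, eq_monomial D n Q hQ, Polynomial.monomial_mul_monomial]
  simp

variable {D} {S : Submonoid D.ver}

/-- the numerator -/
noncomputable def nu (q : HomogeneousLocalization.NumDenSameDeg D.verGr S) : FractionRing R :=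
  algebraMap R (FractionRing R) (((q.num : D.ver) : Polynomial R).coeff q.deg)

/-- the denominator -/
noncomputable def de (q : HomogeneousLocalization.NumDenSameDeg D.verGr S) : FractionRing R :=
  algebraMap R (FractionRing R) (((q.den : D.ver) : Polynomial R).coeff q.deg)

omit [IsDomain R] in
theorem de_ne (hS : (0 : D.ver) ∉ S) (q : HomogeneousLocalization.NumDenSameDeg D.verGr S) :
    de q ≠ 0 := by
  unfold de
  rw [Ne, FaithfulSMul.algebraMap_eq_zero_iff]
  intro h
  apply hS
  have h1 := eq_monomial D q.deg q.den q.den.2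
  rw [h, Polynomial.monomial_zero_right] at h1
  have h2 : (q.den : D.ver) = 0 := Subtype.ext h1
  rw [← h2]
  exact q.den_mem

theorem eq_iff (hS : (0 : D.ver) ∉ S) (p q : HomogeneousLocalization.NumDenSameDeg D.verGr S) :
    HomogeneousLocalization.NumDenSameDeg.embedding D.verGr S p =
      HomogeneousLocalization.NumDenSameDeg.embedding D.verGr S q ↔ nu p * de q = nu q * de p := by
  have hval : nu p * de q = nu q * de p ↔ (p.num : D.ver) * q.den = (q.num : D.ver) * p.den := by
    unfold nu de
    rw [← map_mul, ← map_mul, (IsFractionRing.injective R (FractionRing R)).eq_iff,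
      ← coeff_mul D _ _ _ _ p.num.2 q.den.2, ← coeff_mul D _ _ _ _ q.num.2 p.den.2]
    constructor
    · intro h
      apply Subtype.ext
      have h1 : (p.num : D.ver) * q.den ∈ D.verGr (p.deg + q.deg) :=
        SetLike.GradedMul.mul_mem p.num.2 q.den.2
      have h2 : (q.num : D.ver) * p.den ∈ D.verGr (q.deg + p.deg) :=
        SetLike.GradedMul.mul_mem q.num.2 p.den.2
      rw [eq_monomial D _ _ h1, eq_monomial D _ _ h2, h, add_comm]
    · intro h
      rw [h, add_comm]
  rw [hval]
  unfold HomogeneousLocalization.NumDenSameDeg.embedding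
  rw [Localization.mk_eq_mk_iff, Localization.r_iff_exists]
  constructor
  · rintro ⟨s, hs⟩
    have hs0 : (s : D.ver) ≠ 0 := fun h0 => hS (h0 ▸ s.2)
    have h1 := mul_left_cancel₀ hs0 hs
    simp only at h1
    rw [mul_comm (p.num : D.ver), mul_comm (q.num : D.ver)]
    exact h1
  · intro h
    refine ⟨1, ?_⟩
    simp only
    rw [mul_comm (q.den : D.ver), mul_comm (p.den : D.ver), h]

/-- the map on homogeneous fractions -/
noncomputable def fr (q : HomogeneousLocalization.NumDenSameDeg D.verGr S) : FractionRing R :=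
  nu q / de q

theorem fr_eq_iff (hS : (0 : D.ver) ∉ S) (p q : HomogeneousLocalization.NumDenSameDeg D.verGr S) :
    HomogeneousLocalization.NumDenSameDeg.embedding D.verGr S p =
      HomogeneousLocalization.NumDenSameDeg.embedding D.verGr S q ↔ fr p = fr q := by
  rw [eq_iff hS, fr, fr, div_eq_div_iff (de_ne hS p) (de_ne hS q)]

theorem fr_one (hS : (0 : D.ver) ∉ S) :
    fr (1 : HomogeneousLocalization.NumDenSameDeg D.verGr S) = 1 := by
  have : nu (1 : HomogeneousLocalization.NumDenSameDeg D.verGr S) = de 1 := rfl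
  rw [fr, this, div_self (de_ne hS _)]

theorem fr_zero : fr (0 : HomogeneousLocalization.NumDenSameDeg D.verGr S) = 0 := by
  have : nu (0 : HomogeneousLocalization.NumDenSameDeg D.verGr S) = 0 := by
    unfold nu
    simp
  rw [fr, this, zero_div]

omit [IsDomain R] in
theorem de_mul (p q : HomogeneousLocalization.NumDenSameDeg D.verGr S) : de (p * q) = de p * de q := by
  have h := coeff_mul D _ _ _ _ p.den.2 q.den.2
  unfold de
  rw [← map_mul, ← h]
  rfl

omit [IsDomain R] in
theorem de_add (p q : HomogeneousLocalization.NumDenSameDeg D.verGr S) : de (p + q) = de p * de q := by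
  have h := coeff_mul D _ _ _ _ p.den.2 q.den.2
  unfold de
  rw [← map_mul, ← h]
  rfl

omit [IsDomain R] in
theorem nu_mul (p q : HomogeneousLocalization.NumDenSameDeg D.verGr S) : nu (p * q) = nu p * nu q := by
  have h := coeff_mul D _ _ _ _ p.num.2 q.num.2
  unfold nu
  rw [← map_mul, ← h]
  rfl

omit [IsDomain R] in
theorem nu_add (p q : HomogeneousLocalization.NumDenSameDeg D.verGr S) :
    nu (p + q) = de p * nu q + de q * nu p := by
  have h1 := coeff_mul D _ _ _ _ p.den.2 q.num.2
  have h2 := coeff_mul D _ _ _ _ q.den.2 p.num.2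
  unfold nu de
  rw [← map_mul, ← map_mul, ← map_add, ← h1, ← h2, add_comm q.deg p.deg, ← Polynomial.coeff_add]
  rfl

theorem fr_mul (p q : HomogeneousLocalization.NumDenSameDeg D.verGr S) : fr (p * q) = fr p * fr q := by
  rw [fr, fr, fr, nu_mul, de_mul, div_mul_div_comm]

theorem fr_add (hS : (0 : D.ver) ∉ S) (p q : HomogeneousLocalization.NumDenSameDeg D.verGr S) :
    fr (p + q) = fr p + fr q := by
  rw [fr, fr, fr, nu_add, de_add, div_add_div _ _ (de_ne hS p) (de_ne hS q)]
  ring

/-- the embedding as a function -/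
noncomputable def phiFun (hS : (0 : D.ver) ∉ S) (y : HomogeneousLocalization D.verGr S) : FractionRing R :=
  Quotient.liftOn' y fr (fun p q h => (fr_eq_iff hS p q).1 h)

theorem phiFun_mk (hS : (0 : D.ver) ∉ S) (q : HomogeneousLocalization.NumDenSameDeg D.verGr S) :
    phiFun hS (HomogeneousLocalization.mk q) = fr q := rfl

/-- the embedding -/
noncomputable def phi (hS : (0 : D.ver) ∉ S) :
    HomogeneousLocalization D.verGr S →+* FractionRing R where
  toFun := phiFun hS
  map_one' := fr_one hS
  map_zero' := fr_zero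
  map_mul' := by
    intro x y
    obtain ⟨p, rfl⟩ := HomogeneousLocalization.mk_surjective x
    obtain ⟨q, rfl⟩ := HomogeneousLocalization.mk_surjective y
    rw [← HomogeneousLocalization.mk_mul, phiFun_mk, phiFun_mk, phiFun_mk, fr_mul]
  map_add' := by
    intro x y
    obtain ⟨p, rfl⟩ := HomogeneousLocalization.mk_surjective x
    obtain ⟨q, rfl⟩ := HomogeneousLocalization.mk_surjective y
    rw [← HomogeneousLocalization.mk_add, phiFun_mk, phiFun_mk, phiFun_mk, fr_add hS]

end EMBH

theorem embh : S_EMBH := by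
  intro R ι C r _ _ _ _ D S hS
  refine ⟨EMBH.phi hS, ?_, ?_⟩
  · intro x y
    obtain ⟨p, rfl⟩ := HomogeneousLocalization.mk_surjective x
    obtain ⟨q, rfl⟩ := HomogeneousLocalization.mk_surjective y
    intro h
    have h0 : EMBH.fr p = EMBH.fr q := h
    exact Quotient.sound' ((EMBH.fr_eq_iff hS p q).2 h0)
  · intro q
    show EMBH.nu q / EMBH.de q * EMBH.de q = EMBH.nu q
    rw [div_mul_cancel₀ _ (EMBH.de_ne hS q)]

end FCB
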