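import Pool.Agent.H30.FCB.StB
import Pool.Agent.H30.FCB.Basic

/-! Project FCB: module PINT (helper5). -/

open AlgebraicGeometry CategoryTheory

namespace FCB

namespace PINT

variable {R ι C : Type} {r : ℕ} [CommRing R] [Algebra ℂ R] [Fintype ι]
  {D : Cox R ι C r}

theorem verMono_ne [IsDomain R] (h : D.Laws) (c : C) : D.verMono (D.ν c) (D.d c) (h.ν_wt c) ≠ 0 := by
  intro h0
  have h1 : ((D.verMono (D.ν c) (D.d c) (h.ν_wt c) : D.ver) : Polynomial R).coeff (D.d c) = 0 := by
    rw [h0]
    simp
  have h2 : ((D.verMono (D.ν c) (D.d c) (h.ν_wt c) : D.ver) : Polynomial R) =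
      Polynomial.monomial (D.d c) (D.mono (D.ν c)) := rfl
  rw [h2, Polynomial.coeff_monomial, if_pos rfl] at h1
  exact h.mono_ne _ h1

theorem verMono_mem (h : D.Laws) (c : C) :
    D.verMono (D.ν c) (D.d c) (h.ν_wt c) ∈ D.verGr (D.d c) := by
  intro k hk
  have h2 : ((D.verMono (D.ν c) (D.d c) (h.ν_wt c) : D.ver) : Polynomial R) =
      Polynomial.monomial (D.d c) (D.mono (D.ν c)) := rfl
  rw [h2, Polynomial.coeff_monomial, if_neg (fun h => hk h.symm)]

/-- the generic point -/
noncomputable def eta [IsDomain R] [Nonempty C] (h : D.Laws) : ProjectiveSpectrum D.verGr where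
  asHomogeneousIdeal := ⊥
  isPrime := by
    rw [HomogeneousIdeal.toIdeal_bot]
    exact Ideal.isPrime_bot
  not_irrelevant_le := by
    intro hle
    obtain ⟨c⟩ := ‹Nonempty C›
    have h1 := HomogeneousIdeal.mem_irrelevant_of_mem D.verGr (h.dpos c) (verMono_mem h c)
    have h2 := hle h1
    have h3 : D.verMono (D.ν c) (D.d c) (h.ν_wt c) ∈ (⊥ : HomogeneousIdeal D.verGr).toIdeal := h2
    rw [HomogeneousIdeal.toIdeal_bot] at h3
    exact verMono_ne h c (by simpa using h3)

end PINT

theorem pint : S_PINT := by
  intro R ι C r _ _ _ _ _ D h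
  have hred : IsReduced (Proj D.verGr) := by
    have : ∀ x : Proj D.verGr, _root_.IsReduced ((Proj D.verGr).presheaf.stalk x) := by
      intro x
      let y : ProjectiveSpectrum D.verGr := x
      have hdom : IsDomain (Localization y.asHomogeneousIdeal.toIdeal.primeCompl) :=
        IsLocalization.isDomain_localization (Ideal.primeCompl_le_nonZeroDivisors _)
      have hred : _root_.IsReduced (HomogeneousLocalization.AtPrime D.verGr y.asHomogeneousIdeal.toIdeal) := by
        constructor
        intro a ha
        obtain ⟨n, hn⟩ := ha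
        apply HomogeneousLocalization.val_injective
        have h1 : (a ^ n).val = a.val ^ n := HomogeneousLocalization.val_pow a n
        rw [hn, HomogeneousLocalization.val_zero] at h1
        rw [HomogeneousLocalization.val_zero]
        exact eq_zero_of_pow_eq_zero h1.symm
      exact isReduced_of_injective (Proj.stalkIso D.verGr x).commRingCatIsoToRingEquiv
        (Proj.stalkIso D.verGr x).commRingCatIsoToRingEquiv.injective
    exact isReduced_of_isReduced_stalk _
  have hmem : ∀ U : Set (Proj D.verGr), IsOpen U → U.Nonempty → (PINT.eta h : Proj D.verGr) ∈ U := by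
    intro U hU ⟨x, hx⟩
    obtain ⟨V, ⟨W, ⟨f, rfl⟩, rfl⟩, hxf, hfU⟩ :=
      (Proj.isBasis_basicOpen D.verGr).exists_subset_of_mem_open hx hU
    apply hfU
    show f ∉ (PINT.eta h).asHomogeneousIdeal
    have hxf' : x ∈ Proj.basicOpen D.verGr f := hxf
    rw [Proj.mem_basicOpen] at hxf'
    intro hf
    have h1 : f ∈ (⊥ : HomogeneousIdeal D.verGr).toIdeal := hf
    rw [HomogeneousIdeal.toIdeal_bot] at h1
    have h2 : f = 0 := by simpa using h1
    apply hxf'
    rw [h2]
    exact Ideal.zero_mem _
  have hirr : IrreducibleSpace (Proj D.verGr) := by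
    have : PreirreducibleSpace (Proj D.verGr) := by
      constructor
      intro U V hU hV h1 h2
      have h1' : U.Nonempty := by simpa using h1
      have h2' : V.Nonempty := by simpa using h2
      exact ⟨(PINT.eta h : Proj D.verGr), trivial, hmem U hU h1', hmem V hV h2'⟩
    exact { toNonempty := ⟨(PINT.eta h : Proj D.verGr)⟩ }
  exact isIntegral_of_irreducibleSpace_of_isReduced (Proj D.verGr)

end FCB
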